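import Pool.Agent.R583.CK.Main

/-!
# Orbits of constant maps in `C_k(ω*, ω*)`

Let `Φ` be an autohomeomorphism of `C_k(ω*, ω*)` with `Φ(f_x) = f_y`. The map
`G(s, t) = Φ(f_s)(t)` is a continuous map from `ω* × ω*` to `ω*`. By a theorem of van Douwen such a
map depends locally on one coordinate (`local_dep`, proved in `Pool.Agent.R583.CK.Dep`), and so, by
compactness, there is a partition of `ω*` into finitely many clopen sets such that for all `s` close
to `x` the map `Φ(f_s)` is constant on every piece of the partition. The inverse of `Φ` on such maps
is a continuous map on a finite power of `ω*`, and also depends locally on one coordinate. It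
follows that for every `t₀` there is `t₁` such that `Φ⁻¹(f_{g(s)})(t₀) = s` for `s` close to `x`,
where `g(s) = Φ(f_s)(t₁)`; exchanging the roles of `Φ` and of its inverse, `g` is a homeomorphism
between neighbourhoods of `x` and of `y`, which extends to an autohomeomorphism of `ω*`.
-/

set_option autoImplicit false

open Pool.Agent.R583.CK

namespace Pool.Agent.Results.MP_975af5_gt.OrbitsOfConstants

/-- Points `x, y` of `ω*` are in the same orbit of `ω*` if and only if the constant maps with values
`x` and `y` are in the same orbit of `C(ω*, ω*)` with the compact-open topology. The same holds for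
every compact Hausdorff totally disconnected space `K` in which any two sequences of clopen sets,
the members of the first disjoint from the members of the second, are separated by a clopen set. -/
theorem result :
    (∀ x y : OmegaStar,
      (∃ Φ : C(OmegaStar, OmegaStar) ≃ₜ C(OmegaStar, OmegaStar),
        Φ (ContinuousMap.const OmegaStar x) = ContinuousMap.const OmegaStar y) ↔
      ∃ h : OmegaStar ≃ₜ OmegaStar, h x = y) ∧
    (∀ (K : Type) [TopologicalSpace K] [CompactSpace K] [T2Space K] [TotallyDisconnectedSpace K],
      Sep K → ∀ x y : K,
        ((∃ Φ : C(K, K) ≃ₜ C(K, K), Φ (ContinuousMap.const K x) = ContinuousMap.const K y) ↔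
          ∃ h : K ≃ₜ K, h x = y)) :=
  ⟨fun x y => main sep_omegaStar x y, fun _ _ _ _ _ hS x y => main hS x y⟩

end Pool.Agent.Results.MP_975af5_gt.OrbitsOfConstants
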